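import Pool.Agent.Q274.LCF.Main

set_option autoImplicit false

/-!
# MP_e82249_co: joins with large cliques and the list colour function

Every finite nonempty graph `G` has a `p₀` such that `G ∨ K_p` is enumeratively
chromatic-choosable for every `p ≥ p₀`.
-/

namespace Pool.Agent.Results.MP_e82249_co.JoinClique

/-- The join of two graphs: their disjoint union plus all edges between them. -/
def join {V W : Type} (G : SimpleGraph V) (H : SimpleGraph W) : SimpleGraph (V ⊕ W) where
  Adj x y := match x, y with
    | Sum.inl u, Sum.inl v => G.Adj u v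
    | Sum.inl _, Sum.inr _ => True
    | Sum.inr _, Sum.inl _ => True
    | Sum.inr i, Sum.inr j => H.Adj i j
  symm := ⟨by
    intro x y h
    match x, y, h with
    | Sum.inl u, Sum.inl v, h => exact SimpleGraph.Adj.symm h
    | Sum.inl _, Sum.inr _, _ => trivial
    | Sum.inr _, Sum.inl _, _ => trivial
    | Sum.inr i, Sum.inr j, h => exact SimpleGraph.Adj.symm h⟩
  loopless := ⟨by
    intro x h
    match x, h with
    | Sum.inl u, h => exact G.loopless.irrefl u h
    | Sum.inr i, h => exact H.loopless.irrefl i h⟩

/-- `P(G, L)`: the number of proper `L`-colourings of `G`. -/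
noncomputable def numListColorings {V : Type} (G : SimpleGraph V) (L : V → Finset ℕ) : ℕ :=
  Nat.card {f : V → ℕ // (∀ v, f v ∈ L v) ∧ ∀ x y, G.Adj x y → f x ≠ f y}

/-- `P_ℓ(G, m)`: the least number of proper `L`-colourings over all `m`-assignments `L`. -/
noncomputable def listColorFunction {V : Type} (G : SimpleGraph V) (m : ℕ) : ℕ :=
  sInf {n : ℕ | ∃ L : V → Finset ℕ, (∀ v, (L v).card = m) ∧ n = numListColorings G L}

/-- `P(G, m)`: the number of proper colourings of `G` with `m` colours. -/
noncomputable def numColorings {V : Type} (G : SimpleGraph V) (m : ℕ) : ℕ :=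
  Nat.card (G.Coloring (Fin m))

/-- `G` is enumeratively chromatic-choosable: `P_ℓ(G, m) = P(G, m)` for all `m ≥ χ(G)`. -/
def EnumerativelyChromaticChoosable {V : Type} (G : SimpleGraph V) : Prop :=
  ∀ m : ℕ, G.chromaticNumber ≤ m → listColorFunction G m = numColorings G m

open Pool.Agent.Q274.LCF

theorem numListColorings_eq {V : Type} [Fintype V] (G : SimpleGraph V) (L : V → Finset ℕ) :
    numListColorings G L = (cols G L).card := by
  unfold numListColorings
  rw [← Nat.card_eq_finsetCard]
  apply Nat.card_congr
  exact Equiv.subtypeEquivRight fun f => mem_cols.symm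

theorem listColorFunction_eq {V : Type} [Fintype V] (G : SimpleGraph V) (m : ℕ) :
    listColorFunction G m = minCount G m := by
  unfold listColorFunction minCount
  simp only [numListColorings_eq]

theorem numColorings_eq {V : Type} [Fintype V] (G : SimpleGraph V) (m : ℕ) :
    numColorings G m = N G m := by
  unfold numColorings N
  rw [← Nat.card_eq_finsetCard]
  apply Nat.card_congr
  refine
    { toFun := fun C => ⟨fun v => (C v : ℕ), mem_cols.2 ⟨fun v => Finset.mem_range.2 (C v).2,
        fun x y hxy h => C.valid hxy (Fin.ext h)⟩⟩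
      invFun := fun f => SimpleGraph.Coloring.mk
        (fun v => ⟨f.1 v, Finset.mem_range.1 ((mem_cols.1 f.2).1 v)⟩)
        (fun {x y} hxy h => (mem_cols.1 f.2).2 x y hxy (congrArg Fin.val h))
      left_inv := ?_
      right_inv := ?_ }
  · intro C
    apply RelHom.ext
    intro v
    rfl
  · intro f
    rfl

theorem join_top {V : Type} (G : SimpleGraph V) (p : ℕ) :
    join G (⊤ : SimpleGraph (Fin p)) = J G p := by
  ext x y
  rcases x with u | i <;> rcases y with v | j
  · exact Iff.rfl
  · exact Iff.rfl
  · exact Iff.rfl
  · show (⊤ : SimpleGraph (Fin p)).Adj i j ↔ i ≠ j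
    exact SimpleGraph.top_adj i j

/-- **Every graph has a `p₀` such that all its joins with `K_p`, `p ≥ p₀`, are enumeratively
chromatic-choosable.** -/
theorem result : ∀ (V : Type) [Finite V] [Nonempty V] (G : SimpleGraph V),
    ∃ p₀ : ℕ, ∀ p : ℕ, p₀ ≤ p →
      EnumerativelyChromaticChoosable (join G (⊤ : SimpleGraph (Fin p))) := by
  intro V _ _ G
  have : Fintype V := Fintype.ofFinite V
  obtain ⟨p₀, hp₀⟩ := uniform G
  refine ⟨p₀, fun p hp m hm => ?_⟩
  rw [join_top] at hm ⊢
  rw [listColorFunction_eq, numColorings_eq]
  apply le_antisymm (minCount_le_N _ _)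
  apply hp₀ p hp
  obtain ⟨C⟩ := SimpleGraph.chromaticNumber_le_iff_colorable.1 hm
  have hinj : Function.Injective (fun i : Fin p => C (Sum.inr i)) := by
    intro i j hij
    by_contra hne
    exact C.valid (v := Sum.inr i) (w := Sum.inr j) hne hij
  simpa using Fintype.card_le_of_injective _ hinj

end Pool.Agent.Results.MP_e82249_co.JoinClique
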